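import Mathlib
import Pool.Agent.H.MP_f12eed_co.B

namespace Pool.Agent.Results.MP_f12eed_co.Differ

open SimpleGraph Pool.Agent.H.MP_f12eed_co

/-- `H` has no `f`-exclusive copy of `G`. -/
def Block {W V : Type} (G : SimpleGraph W) (H : SimpleGraph V) (f : Sym2 V → Sym2 V) : Prop :=
  ∀ φ : W ↪ V, (∀ a b, G.Adj a b → H.Adj (φ a) (φ b)) →
    ∃ a b, G.Adj a b ∧ ∃ w, φ w ∈ f s(φ a, φ b)

noncomputable def s {W : Type} (n : ℕ) (G : SimpleGraph W) : ℕ :=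
  sSup {m | ∃ (H : SimpleGraph (Fin n)) (f : Sym2 (Fin n) → Sym2 (Fin n)),
    (∀ e ∈ H.edgeSet, f e ∈ H.edgeSet ∧ ∀ v ∈ e, v ∉ f e) ∧ Block G H f ∧ m = H.edgeSet.ncard}

noncomputable def p {W : Type} (n : ℕ) (G : SimpleGraph W) : ℕ :=
  sSup {m | m ≤ n.choose 2 ∧ ∃ f : Sym2 (Fin n) → Sym2 (Fin n),
    (∀ e ∈ (⊤ : SimpleGraph (Fin n)).edgeSet, f e ∈ (⊤ : SimpleGraph (Fin n)).edgeSet) ∧
    m ≤ {e ∈ (⊤ : SimpleGraph (Fin n)).edgeSet | ∀ v ∈ e, v ∉ f e}.ncard ∧ Block G ⊤ f}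

def T : List ((Fin 8 × Fin 8) × Fin 8 × Fin 8) := [((0, 1), 2, 4), ((0, 2), 3, 4), ((0, 3), 1, 4),
  ((0, 4), 1, 2), ((1, 2), 0, 3), ((1, 3), 0, 2), ((1, 4), 2, 3), ((2, 3), 0, 4), ((2, 4), 1, 3),
  ((3, 4), 0, 1), ((5, 6), 7, 0), ((6, 7), 5, 0), ((5, 7), 6, 0)]

def f0 (e : Sym2 (Fin 8)) : Sym2 (Fin 8) :=
  match T.find? (fun t => s(t.1.1, t.1.2) = e) with
  | some t => s(t.2.1, t.2.2)
  | none => e

lemma up (H : SimpleGraph (Fin 8)) (f : Sym2 (Fin 8) → Sym2 (Fin 8))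
    (h1 : ∀ e ∈ H.edgeSet, f e ∈ H.edgeSet ∧ ∀ v ∈ e, v ∉ f e) (h2 : Block (pathGraph 3) H f) :
    H.edgeSet.ncard ≤ 12 := by
  classical
  by_contra hc
  obtain ⟨v, hv⟩ : ∃ v, 4 ≤ H.degree v := by
    by_contra h
    push Not at h
    have a := H.sum_degrees_eq_twice_card_edges
    have b : ∑ v, H.degree v ≤ ∑ _v : Fin 8, 3 := Finset.sum_le_sum fun v _ => by
      have := h v
      omega
    rw [← coe_edgeFinset, Set.ncard_coe_finset] at hc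
    simp at b
    omega
  have cov : ∀ a b d, a ≠ d → H.Adj a b → H.Adj b d → d ∈ f s(a, b) ∨ a ∈ f s(b, d) := by
    intro a b d ne k1 k2
    have n1 := (h1 _ ((mem_edgeSet H).2 k1)).2
    have n2 := (h1 _ ((mem_edgeSet H).2 k2)).2
    obtain ⟨i, j, e, w, hw⟩ := h2 ⟨![a, b, d], fun i j => by
      fin_cases i <;> fin_cases j <;> simp [k1.ne, k1.ne', k2.ne, k2.ne', ne, ne.symm]⟩ (by
      intro i j e
      fin_cases i <;> fin_cases j <;> simp [pathGraph_adj] at e <;> simp [k1, k2, k1.symm, k2.symm])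
    have m1 : f s(b, a) = f s(a, b) := by rw [Sym2.eq_swap]
    have m2 : f s(d, b) = f s(b, d) := by rw [Sym2.eq_swap]
    simp only [Sym2.mem_iff, forall_eq_or_imp, forall_eq] at n1 n2
    fin_cases i <;> fin_cases j <;> simp [pathGraph_adj] at e <;> fin_cases w <;>
      simp [m1, m2] at hw <;> tauto
  obtain ⟨g, hg⟩ := Function.Embedding.exists_of_card_le_finset (α := Fin 4)
    (s := H.neighborFinset v) (by simpa using hv)
  have hg' : ∀ i, H.Adj v (g i) := fun i => by simpa using hg ⟨i, rfl⟩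
  have cv : ∀ i j, i ≠ j → g j ∈ f s(v, g i) ∨ g i ∈ f s(v, g j) := fun i j ne => by
    simpa only [Sym2.eq_swap (a := g i)] using
      cov (g i) v (g j) (g.injective.ne ne) (hg' i).symm (hg' j)
  obtain ⟨ρ, r0, r1, r2⟩ : ∃ ρ : Fin 4 → Fin 4, ρ.Injective ∧ g (ρ 1) ∈ f s(v, g (ρ 0)) ∧
      g (ρ 2) ∈ f s(v, g (ρ 0)) := by
    rcases cv 0 1 (by decide) with a | a <;> rcases cv 0 2 (by decide) with b | b <;>
      rcases cv 0 3 (by decide) with c | c <;> rcases cv 1 2 (by decide) with d | d <;>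
      rcases cv 1 3 (by decide) with e | e <;> rcases cv 2 3 (by decide) with k | k <;>
      first
        | exact ⟨![0, 1, 2, 3], by decide, a, b⟩ | exact ⟨![0, 1, 3, 2], by decide, a, c⟩
        | exact ⟨![0, 2, 3, 1], by decide, b, c⟩ | exact ⟨![1, 0, 2, 3], by decide, a, d⟩
        | exact ⟨![1, 0, 3, 2], by decide, a, e⟩ | exact ⟨![1, 2, 3, 0], by decide, d, e⟩
        | exact ⟨![2, 0, 1, 3], by decide, b, d⟩ | exact ⟨![2, 0, 3, 1], by decide, b, k⟩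
        | exact ⟨![2, 1, 3, 0], by decide, d, k⟩ | exact ⟨![3, 0, 1, 2], by decide, c, e⟩
        | exact ⟨![3, 0, 2, 1], by decide, c, k⟩ | exact ⟨![3, 1, 2, 0], by decide, e, k⟩
  obtain ⟨σ, hσ⟩ := Equiv.Perm.exists_extending_pair (f := Fin.castLE (show 5 ≤ 8 by omega))
    (g := Fin.cons v (g ∘ ρ)) (Fin.castLE_injective _) (Fin.cons_injective_iff.2
      ⟨fun ⟨i, hi⟩ => (hg' _).ne hi.symm, g.injective.comp r0⟩)
  have s0 : σ 0 = v := hσ 0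
  have s1 : σ 1 = g (ρ 0) := hσ 1
  have s2 : σ 2 = g (ρ 1) := hσ 2
  have s3 : σ 3 = g (ρ 2) := hσ 3
  have s4 : σ 4 = g (ρ 3) := hσ 4
  refine u (h := fun a b => H.Adj (σ a) (σ b))
    (c := fun a b x => H.Adj (σ a) (σ b) ∧ σ x ∈ f s(σ a, σ b))
    ⟨fun a b h => h.symm, fun a b x h => ⟨h.1.symm, Sym2.eq_swap ▸ h.2⟩, ?_, ?_, ?_,
      fun a b d l k1 k2 => (cov _ _ _ (σ.injective.ne l.ne) k1 k2).imp (⟨k1, ·⟩) (⟨k2, ·⟩),
      ?_, ?_, ?_⟩
  · rintro a b x y z l1 l2 ⟨-, k1⟩ ⟨-, k2⟩ ⟨-, k3⟩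
    rw [(Sym2.mem_and_mem_iff (σ.injective.ne l1.ne)).1 ⟨k1, k2⟩, Sym2.mem_iff,
      σ.injective.eq_iff, σ.injective.eq_iff] at k3
    exact k3.elim (l1.trans l2).ne' l2.ne'
  · rintro a b x y l1 ⟨k, k1⟩ ⟨-, k2⟩
    have := (h1 _ ((mem_edgeSet H).2 k)).1
    rwa [(Sym2.mem_and_mem_iff (σ.injective.ne l1.ne)).1 ⟨k1, k2⟩] at this
  · rintro a b x ⟨k, k1⟩
    obtain ⟨k2, k3⟩ := h1 _ ((mem_edgeSet H).2 k)
    obtain ⟨y, hy⟩ := Sym2.mem_iff_exists.1 k1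
    obtain ⟨y, rfl⟩ := σ.surjective y
    rw [hy] at k2 k3
    refine ⟨y, ?_, ?_, ?_, k2⟩
    · rintro rfl
      exact k3 _ (Sym2.mem_mk_left _ _) (Sym2.mem_mk_right _ _)
    · rintro rfl
      exact k3 _ (Sym2.mem_mk_right _ _) (Sym2.mem_mk_right _ _)
    · rintro rfl
      exact H.irrefl k2
  · refine le_trans (not_le.1 hc) ?_
    unfold cnt
    rw [← Set.ncard_coe_finset]
    refine le_trans (Set.ncard_le_ncard ?_ (Set.toFinite _)) (Set.ncard_image_le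
      (f := fun k => s(σ (ed k).1, σ (ed k).2)) (Finset.finite_toSet _))
    intro e he
    induction e using Sym2.ind with
    | _ a b =>
      obtain ⟨a, rfl⟩ := σ.surjective a
      obtain ⟨b, rfl⟩ := σ.surjective b
      have : ∀ a b : Fin 8, a ≠ b → ∃ k < 28, ed k = (a, b) ∨ ed k = (b, a) := by decide +kernel
      obtain ⟨k, k1, k2 | k2⟩ := this a b fun h => H.irrefl (h ▸ (mem_edgeSet H).1 he)
      · exact ⟨k, by simpa [k1, k2] using he, by simp [k2]⟩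
      · exact ⟨k, by simpa [k1, k2] using ((mem_edgeSet H).1 he).symm, by simp [k2]⟩
  · intro a a1 a2
    fin_cases a <;> simp at a1 a2 <;> simp [s0, s1, s2, s3, s4, hg']
  · intro a a1 a2
    fin_cases a <;> simp at a1 a2 <;> simp [s0, s1, s2, s3, hg', r1, r2]

theorem result : s 8 (pathGraph 3) ≤ 12 ∧ 13 ≤ p 8 (pathGraph 3) := by
  refine ⟨csSup_le' ?_, le_csSup ⟨_, fun m hm => hm.1⟩ ⟨by decide, f0, ?_, ?_, ?_⟩⟩
  · rintro m ⟨H, f, h1, h2, rfl⟩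
    exact up H f h1 h2
  · intro e
    induction e using Sym2.ind with
    | _ a b =>
      have : ∀ a b : Fin 8, a ≠ b → ¬ (f0 s(a, b)).IsDiag := by decide +kernel
      simpa using this a b
  · have : (T.map fun t => s(t.1.1, t.1.2)).toFinset.card = 13 := by decide +kernel
    rw [← this, ← Set.ncard_coe_finset]
    refine Set.ncard_le_ncard (fun e he => ?_) (Set.toFinite _)
    have : ∀ e ∈ T.map fun t => s(t.1.1, t.1.2), ¬ e.IsDiag ∧ ∀ v ∈ e, v ∉ f0 e := by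
      decide +kernel
    simpa using this e (by simpa using he)
  · intro φ hφ
    have : ∀ a b c : Fin 8, a ≠ b → b ≠ c → a ≠ c → (a ∈ f0 s(a, b) ∨ c ∈ f0 s(a, b)) ∨
        b ∈ f0 s(b, c) ∨ a ∈ f0 s(b, c) := by decide +kernel
    have e1 : (pathGraph 3).Adj 0 1 := by simp [pathGraph_adj]
    have e2 : (pathGraph 3).Adj 1 2 := by simp [pathGraph_adj]
    rcases this (φ 0) (φ 1) (φ 2) (by simp) (by simp) (by simp) with (h | h) | h | h
    exacts [⟨0, 1, e1, 0, h⟩, ⟨0, 1, e1, 2, h⟩, ⟨1, 2, e2, 1, h⟩, ⟨1, 2, e2, 0, h⟩]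

end Pool.Agent.Results.MP_f12eed_co.Differ
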